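import Pool.Agent.H86.RG.Targets2

/-! Partial regularity of stationary harmonic maps (MP_2697e3_an), part E: the telescoping identity
(row E6REP). -/

set_option autoImplicit false

namespace Pool.Agent.H13.RG6

open MeasureTheory Metric Set Filter Topology Pool.Agent.H87.SN Pool.Agent.H86.RG
open scoped ContDiff RealInnerProductSpace ENNReal

noncomputable section

variable {n : ℕ}

theorem dd_refl (i : Fin n) (h : E n → ℝ) (hh : Differentiable ℝ h) (x : E n) (y : E n) :
    dd i (fun y => h (x - y)) y = - dd i h (x - y) := by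
  unfold dd
  have h1 : HasFDerivAt (fun y : E n => x - y) (-(ContinuousLinearMap.id ℝ (E n))) y :=
    (hasFDerivAt_id y).const_sub x
  have h2 : HasFDerivAt (fun y => h (x - y)) _ y :=
    HasFDerivAt.comp y (hh (x - y)).hasFDerivAt h1
  rw [h2.fderiv]
  simp

theorem dd_cmul (i : Fin n) (c : ℝ) (h : E n → ℝ) (hh : Differentiable ℝ h) (x : E n) :
    dd i (fun y => c * h y) x = c * dd i h x := by
  unfold dd
  rw [fderiv_const_mul (hh x)]
  simp

/-- kernels are integrable against locally integrable functions -/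
theorem int_ker {k v : E n → ℝ} {x x₀ : E n} {r R : ℝ} (hk : Continuous k)
    (h0 : ∀ z, r ≤ ‖z‖ → k z = 0) (hsub : closedBall x r ⊆ ball x₀ (2 * R))
    (hv : IntegrableOn v (ball x₀ (2 * R))) : Integrable (fun y => k (x - y) * v y) := by
  have h1 : Integrable ((ball x₀ (2 * R)).indicator v) :=
    (integrable_indicator_iff measurableSet_ball).2 hv
  have hcs : HasCompactSupport k := by
    refine HasCompactSupport.of_support_subset_isCompact (isCompact_closedBall 0 r) fun z hz => ?_
    rw [mem_closedBall_zero_iff]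
    by_contra h
    exact hz (h0 z (not_le.1 h).le)
  obtain ⟨C, hC⟩ := hcs.exists_bound_of_continuous hk
  have h2 : Integrable (fun y => k (x - y) * (ball x₀ (2 * R)).indicator v y) :=
    h1.bdd_mul (c := C) (hk.comp (continuous_const.sub continuous_id)).aestronglyMeasurable
      (Eventually.of_forall fun y => hC _)
  refine h2.congr (Eventually.of_forall fun y => ?_)
  by_cases hy : y ∈ ball x₀ (2 * R)
  · simp only [indicator_of_mem hy]
  · have h3 : y ∉ closedBall x r := fun h => hy (hsub h)
    have h4 : r ≤ ‖x - y‖ := by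
      rw [mem_closedBall, dist_comm, dist_eq_norm, not_le] at h3
      exact h3.le
    simp only [h0 _ h4, zero_mul]

theorem pf_REP (hDIL : T_DIL) : T_REP := by
  intro n φ ζ hK v g x₀ R hv hg hW x hx t ht htR
  obtain ⟨d1, d2, d3, -, d5⟩ := hDIL n ζ t ht hK.sζ hK.zζ
  obtain ⟨a1, a2, -, -, -⟩ := hDIL n φ t ht hK.sφ hK.zφ
  obtain ⟨b1, b2, -, -, -⟩ := hDIL n φ (t / 2) (by positivity) hK.sφ hK.zφ
  have hsub : closedBall x t ⊆ ball x₀ (2 * R) := by
    intro y hy
    rw [mem_closedBall] at hy
    rw [mem_ball] at hx ⊢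
    have := dist_triangle y x x₀
    linarith
  have hsm : ContDiff ℝ ∞ (fun y : E n => x - y) := contDiff_const.sub contDiff_id
  -- the test function
  have htst : Tst (ball x₀ (2 * R)) (fun y => t ^ 2 * dil ζ t (x - y)) := by
    have h1 : Function.support (fun y => t ^ 2 * dil ζ t (x - y)) ⊆ closedBall x t := by
      intro y hy
      by_contra h
      apply hy
      rw [mem_closedBall, dist_comm, dist_eq_norm, not_le] at h
      simp only [d2 _ h.le, mul_zero]
    refine ⟨contDiff_const.mul (d1.comp hsm),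
      HasCompactSupport.of_support_subset_isCompact (isCompact_closedBall x t) h1, ?_⟩
    exact (closure_minimal h1 isClosed_closedBall).trans hsub
  have hlap : ∀ y, lap (fun y => t ^ 2 * dil ζ t (x - y)) y =
      dil φ (t / 2) (x - y) - dil φ t (x - y) := by
    intro y
    have e1 : ∀ (i : Fin n) (z : E n), dd i (fun y => t ^ 2 * dil ζ t (x - y)) z =
        -(t * dil (dd i ζ) t (x - z)) := by
      intro i z
      rw [dd_cmul i _ (fun y => dil ζ t (x - y)) ((d1.comp hsm).differentiable (by simp)) z,
        dd_refl i (dil ζ t) (d1.differentiable (by simp)) x z, d3 i]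
      field_simp
    have e2 : ∀ i : Fin n, dd i (dd i (fun y => t ^ 2 * dil ζ t (x - y))) y =
        (t ^ n)⁻¹ * dd i (dd i ζ) (t⁻¹ • (x - y)) := by
      intro i
      obtain ⟨c1, c2, -⟩ := d5 i
      obtain ⟨f1, f2, f3, -, -⟩ := hDIL n (dd i ζ) t ht c1 c2
      have e3 : dd i (fun y => t ^ 2 * dil ζ t (x - y)) =
          fun z => (-t) * dil (dd i ζ) t (x - z) := by
        funext z
        rw [e1 i z]
        ring
      rw [e3, dd_cmul i _ (fun y => dil (dd i ζ) t (x - y))
        ((f1.comp hsm).differentiable (by simp)) y, dd_refl i (dil (dd i ζ) t)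
        (f1.differentiable (by simp)) x y, f3 i]
      unfold dil
      field_simp
    have e4 := hK.tel (t⁻¹ • (x - y))
    have e5 : dil φ (t / 2) (x - y) = (t ^ n)⁻¹ * (2 ^ n * φ ((2 : ℝ) • t⁻¹ • (x - y))) := by
      unfold dil
      rw [smul_smul, div_pow, inv_div, inv_div]
      have e6 : (2 : ℝ) * t⁻¹ = 2 / t := by rw [div_eq_mul_inv]
      rw [e6]
      ring
    have e7 : dil φ t (x - y) = (t ^ n)⁻¹ * φ (t⁻¹ • (x - y)) := rfl
    rw [e5, e7, ← mul_sub, e4]
    unfold lap
    rw [Finset.mul_sum]
    exact Finset.sum_congr rfl fun i _ => e2 i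
  have h := hW _ htst
  have i1 : Integrable (fun y => dil φ (t / 2) (x - y) * v y) :=
    int_ker (r := t) b1.continuous (fun z hz => b2 z (by linarith)) hsub hv
  have i2 : Integrable (fun y => dil φ t (x - y) * v y) := int_ker a1.continuous a2 hsub hv
  have h2 : ∫ y, v y * lap (fun y => t ^ 2 * dil ζ t (x - y)) y =
      (∫ y, dil φ (t / 2) (x - y) * v y) - ∫ y, dil φ t (x - y) * v y := by
    rw [← integral_sub i1 i2]
    refine integral_congr_ae (Eventually.of_forall fun y => ?_)
    simp only [hlap y]
    ring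
  have h3 : ∫ y, g y * (t ^ 2 * dil ζ t (x - y)) = t ^ 2 * ∫ y, dil ζ t (x - y) * g y := by
    rw [← integral_const_mul]
    refine integral_congr_ae (Eventually.of_forall fun y => ?_)
    simp only []
    ring
  rw [h2, h3] at h
  unfold cv
  linarith

end

end Pool.Agent.H13.RG6
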